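import Pool.Agent.K1H50.PV.Stm
import Pool.Agent.Y486.SQ.Law

set_option autoImplicit false

/-! # Counting with two shifts -/

namespace Pool.Agent.K1H37.PV

open Finset Pool.Agent.H373R2.T7 Pool.Agent.Y486.SQ
open Pool.Agent.Y862.SQ (rH VH)
open Pool.Agent.K1H50.PV

/-- the shifts at `p` -/
def Hs (T T' : Finset ℕ) (h h' p : ℕ) : Finset ℕ :=
  if p ∈ T then {h} else if p ∈ T' then {h'} else {h, h'}

/-- the condition -/
def QQ (Z : ℕ) (T T' : Finset ℕ) (h h' p n : ℕ) : Prop := Qz Z (Hs T T' h h' p) p n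

theorem nuB_QQ (Z : ℕ) (T T' : Finset ℕ) (h h' p : ℕ) :
    nuB (QQ Z T T' h h') p = rH (Hs T T' h h' p) p := by
  rw [← nuB_Qz Z]
  rfl

theorem card_Hs (T T' : Finset ℕ) (h h' p : ℕ) : (Hs T T' h h' p).card ≤ 2 := by
  unfold Hs
  split_ifs
  · simp
  · simp
  · exact card_le_two

theorem perB_QQ (Z : ℕ) (T T' : Finset ℕ) (h h' : ℕ) : PerB (QQ Z T T' h h') 4 := by
  refine ⟨fun p n => Qz_per Z _ p n, fun p hp => ?_⟩
  have h1 : nuB (QQ Z T T' h h') p = nuB (Qz Z (Hs T T' h h' p)) p := rfl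
  rw [h1]
  have h2 := (Qz_perB Z (Hs T T' h h' p)).few p hp
  have h3 := card_Hs T T' h h' p
  omega

theorem rH_single (a p : ℕ) (hp : p.Prime) : rH {a} p ≤ 2 := by
  have h1 := (Qz_perB 0 {a}).few p hp
  rw [nuB_Qz] at h1
  simpa using h1

theorem t_CNT (hF : S_FLT) : S_CNT := by
  classical
  obtain ⟨C0, hC0, hC⟩ := hF 4 (by norm_num)
  refine ⟨C0, hC0, fun b hb => ?_⟩
  obtain ⟨y0, hy0⟩ := hC b hb
  refine ⟨y0, fun y hy Z Y h h' T T' hT hT' hd => ?_⟩
  have hnT : ∀ p ∈ pz y, p ∉ T := fun p hp hpT => by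
    have h1 := (mem_pz.1 hp).1
    have h2 := (hT p hpT).2
    omega
  have hnT' : ∀ p ∈ pz y, p ∉ T' := fun p hp hpT => by
    have h1 := (mem_pz.1 hp).1
    have h2 := (hT' p hpT).2
    omega
  have hdT : ∀ p ∈ T', p ∉ T := fun p hp hpT => (Finset.disjoint_left.1 hd hpT) hp
  have eT : ∀ p ∈ T, Hs T T' h h' p = {h} := fun p hp => by
    unfold Hs
    rw [if_pos hp]
  have eT' : ∀ p ∈ T', Hs T T' h h' p = {h'} := fun p hp => by
    unfold Hs
    rw [if_neg (hdT p hp), if_pos hp]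
  have ey : ∀ p ∈ pz y, Hs T T' h h' p = {h, h'} := fun p hp => by
    unfold Hs
    rw [if_neg (hnT p hp), if_neg (hnT' p hp)]
  have hmain := hy0 y hy (QQ Z T T' h h') (perB_QQ Z T T' h h') (T ∪ T') (fun p hp => by
    rcases mem_union.1 hp with hp | hp
    · exact hT p hp
    · exact hT' p hp) Y
  -- the count
  have hcount : ((Icc 1 Y).filter (fun n : ℕ => (∀ p ∈ T ∪ T', QQ Z T T' h h' p n) ∧
      ∀ p ∈ pz y, ¬ QQ Z T T' h h' p n)).card = cnt y Z Y h h' T T' := by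
    unfold cnt
    have hiff : ∀ n : ℕ, ((∀ p ∈ T ∪ T', QQ Z T T' h h' p n) ∧
        ∀ p ∈ pz y, ¬ QQ Z T T' h h' p n) ↔ ((∀ p ∈ T, p ∣ (n + Z) ^ 2 + h) ∧
        (∀ p ∈ T', p ∣ (n + Z) ^ 2 + h') ∧
        ∀ p ∈ Pool.Agent.Y862.SQ.pr y, ¬ p ∣ (n + Z) ^ 2 + h ∧ ¬ p ∣ (n + Z) ^ 2 + h') := by
      intro n
      have q1 : ∀ p ∈ T, (QQ Z T T' h h' p n ↔ p ∣ (n + Z) ^ 2 + h) := fun p hp => by
        unfold QQ Qz
        rw [eT p hp]
        simp
      have q2 : ∀ p ∈ T', (QQ Z T T' h h' p n ↔ p ∣ (n + Z) ^ 2 + h') := fun p hp => by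
        unfold QQ Qz
        rw [eT' p hp]
        simp
      have q3 : ∀ p ∈ pz y, (QQ Z T T' h h' p n ↔
          (p ∣ (n + Z) ^ 2 + h ∨ p ∣ (n + Z) ^ 2 + h')) := fun p hp => by
        unfold QQ Qz
        rw [ey p hp]
        simp
      constructor
      · rintro ⟨a1, a2⟩
        refine ⟨fun p hp => (q1 p hp).1 (a1 p (mem_union_left _ hp)),
          fun p hp => (q2 p hp).1 (a1 p (mem_union_right _ hp)), fun p hp => ?_⟩
        have h1 := a2 p hp
        rw [q3 p hp, not_or] at h1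
        exact h1
      · rintro ⟨a1, a2, a3⟩
        refine ⟨fun p hp => ?_, fun p hp => ?_⟩
        · rcases mem_union.1 hp with hp | hp
          · exact (q1 p hp).2 (a1 p hp)
          · exact (q2 p hp).2 (a2 p hp)
        · rw [q3 p hp, not_or]
          exact a3 p hp
    apply Finset.card_bij (fun n _ => n + Z)
    · intro n hn
      rw [mem_filter, mem_Icc] at hn
      rw [mem_filter, mem_Ioc]
      exact ⟨by omega, (hiff n).1 hn.2⟩
    · intro a _ b _ hab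
      omega
    · intro n hn
      rw [mem_filter, mem_Ioc] at hn
      refine ⟨n - Z, ?_, by omega⟩
      rw [mem_filter, mem_Icc]
      refine ⟨by omega, (hiff (n - Z)).2 ?_⟩
      rw [Nat.sub_add_cancel (by omega)]
      exact hn.2
  -- the products
  have hV : ∏ p ∈ pz y, (1 - (nuB (QQ Z T T' h h') p : ℝ) / p) = VH {h, h'} y := by
    unfold VH
    apply Finset.prod_congr rfl
    intro p hp
    rw [nuB_QQ, ey p hp]
  have hprod : ∏ p ∈ T ∪ T', ((nuB (QQ Z T T' h h') p : ℝ) / p) =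
      (∏ p ∈ T, gg h p) * ∏ p ∈ T', gg h' p := by
    rw [Finset.prod_union hd]
    congr 1
    · refine Finset.prod_congr rfl fun p hp => ?_
      rw [nuB_QQ, eT p hp]
      rfl
    · refine Finset.prod_congr rfl fun p hp => ?_
      rw [nuB_QQ, eT' p hp]
      rfl
  have hnu : ∏ p ∈ T ∪ T', (nuB (QQ Z T T' h h') p : ℝ) ≤ 2 ^ (T.card + T'.card) := by
    rw [← Finset.card_union_of_disjoint hd, ← Finset.prod_const]
    refine Finset.prod_le_prod (fun p _ => Nat.cast_nonneg _) fun p hp => ?_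
    rw [nuB_QQ]
    rcases mem_union.1 hp with hp | hp
    · rw [eT p hp]
      exact_mod_cast rH_single h p (hT p hp).1
    · rw [eT' p hp]
      exact_mod_cast rH_single h' p (hT' p hp).1
  rw [hV, hprod] at hmain
  have hc2 : (((Icc 1 Y).filter (fun n : ℕ => (∀ p ∈ T ∪ T', QQ Z T T' h h' p n) ∧
      ∀ p ∈ pz y, ¬ QQ Z T T' h h' p n)).card : ℝ) = (cnt y Z Y h h' T T' : ℝ) := by
    exact_mod_cast hcount
  have e1 : (Y : ℝ) * VH {h, h'} y * (∏ p ∈ T, gg h p) * ∏ p ∈ T', gg h' p =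
      Y * VH {h, h'} y * ((∏ p ∈ T, gg h p) * ∏ p ∈ T', gg h' p) := by ring
  rw [e1]
  have hpow : (0 : ℝ) ≤ (y : ℝ) ^ (C0 * b) := by positivity
  have hfin := mul_le_mul_of_nonneg_right hnu hpow
  have hall := hmain.trans (add_le_add (le_refl _) hfin)
  rw [← hcount]
  convert hall

end Pool.Agent.K1H37.PV
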